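import Pool.Agent.Helper95.HV.All

/-!
# Total momentum and kinetic energy in ground states of molecules with many heavy nuclei
-/

set_option autoImplicit false

namespace Pool.Agent.Results.MP_56acfd_mp.HeavyNuclei

open Pool.Agent.Helper95.PW

/-- For neutral molecules with any number of nuclei, all of charge between `z` and `κ z`, at
mutual distances at least `d`, the expectation of the squared total momentum in a ground state is
at most `C z ^ (-1/15)` times the kinetic energy. -/
theorem result : ∀ κ d : ℝ, 1 ≤ κ → 0 < d → ∃ C z0 : ℝ, 0 < C ∧ 0 < z0 ∧ ∀ (z : ℝ) (n M : ℕ)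
    (X : Fin M → R3) (Z : Fin M → ℕ) (E : ℝ) (φ : Wf n) (G : Fin n → Fin 3 → Wf n), 1 ≤ M →
    MolGround n X Z E φ G → z0 ≤ z → (∀ j, z ≤ Z j ∧ (Z j : ℝ) ≤ κ * z) →
    (∀ i j, i ≠ j → d ≤ nr (X i - X j)) → mom G ≤ C * z ^ (-(1 / 15) : ℝ) * kinG G :=
  fun κ d hκ hd => Pool.Agent.Helper95.HV.heavy κ d hκ hd

end Pool.Agent.Results.MP_56acfd_mp.HeavyNuclei
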