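import Pool.Agent.Helper95.HS.All

/-!
# Total momentum and kinetic energy in ground states of hydrogen systems
-/

set_option autoImplicit false

namespace Pool.Agent.Results.MP_56acfd_mp.Hydrogen

open Pool.Agent.Helper95.PW

/-- For neutral molecules whose nuclei have charge one and mutual distances at least `d` the
expectation of the squared total momentum in a ground state is at most `θ` times the kinetic
energy, for every `θ > √6` if `d` is large enough. -/
theorem result : ∀ θ : ℝ, 0 < θ → 6 < θ ^ 2 → ∃ d : ℝ, 0 < d ∧ ∀ (n M : ℕ) (X : Fin M → R3)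
    (Z : Fin M → ℕ) (E : ℝ) (φ : Wf n) (G : Fin n → Fin 3 → Wf n), 1 ≤ M →
    MolGround n X Z E φ G → (∀ j, Z j = 1) → (∀ i j, i ≠ j → d ≤ nr (X i - X j)) →
    mom G ≤ θ * kinG G :=
  fun θ h0 h6 => Pool.Agent.Helper95.HS.hydrogen θ h0 h6

end Pool.Agent.Results.MP_56acfd_mp.Hydrogen
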