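import Pool.Agent.Helper95.PM.All
import Pool.Agent.Helper95.PM.Mol

/-!
# Total momentum and kinetic energy in ground states of neutral molecules
-/

set_option autoImplicit false

namespace Pool.Agent.Results.MP_56acfd_mp.ManyElectrons

open Pool.Agent.Helper95.PW

/-- For every ground state of a neutral molecule with `M` nuclei and `n` electrons the square of
the total momentum of the electrons is at most `C M^18 n^(-1/15)` times the kinetic energy, so it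
is at most three times the kinetic energy if `M` is at most `c n^(1/270)`. -/
theorem result : ∃ C c : ℝ, 0 < C ∧ 0 < c ∧ ∀ (n M : ℕ) (X : Fin M → R3) (Z : Fin M → ℕ)
    (E : ℝ) (φ : Wf n) (G : Fin n → Fin 3 → Wf n), 1 ≤ M → MolGround n X Z E φ G →
    mom G ≤ C * (M : ℝ) ^ 18 * (n : ℝ) ^ (-(1 / 15) : ℝ) * kinG G ∧
    ((M : ℝ) ≤ c * (n : ℝ) ^ (1 / 270 : ℝ) → mom G ≤ 3 * kinG G) := by
  obtain ⟨hI, C, hC, hmain⟩ := allM
  refine ⟨C, (3 / C) ^ (1 / 18 : ℝ), hC, by positivity, ?_⟩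
  intro n M X Z E φ G hM h
  have hn : 1 ≤ n := by
    rw [← h.neutral]
    have h0 : Z ⟨0, hM⟩ ≤ ∑ j, Z j := Finset.single_le_sum (fun _ _ => Nat.zero_le _)
      (Finset.mem_univ _)
    exact (h.charge _).trans h0
  have h1 := hmain n M X (fun j => (Z j : ℝ)) (E - nuc X Z) φ G hn hM (mol_nuc h)
    (mol_ground hI h)
  refine ⟨h1, fun hMc => ?_⟩
  have hn0 : (0 : ℝ) < n := by exact_mod_cast hn
  have hk : 0 ≤ kinG G := S17.kinG_nonneg G
  have h2 : (M : ℝ) ^ 18 ≤ 3 / C * (n : ℝ) ^ (1 / 15 : ℝ) := by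
    have h3 : (M : ℝ) ^ 18 ≤ ((3 / C) ^ (1 / 18 : ℝ) * (n : ℝ) ^ (1 / 270 : ℝ)) ^ 18 := by
      gcongr
    refine h3.trans (le_of_eq ?_)
    rw [mul_pow, ← Real.rpow_natCast, ← Real.rpow_natCast, ← Real.rpow_mul (by positivity),
      ← Real.rpow_mul hn0.le]
    norm_num
  have h4 : C * (M : ℝ) ^ 18 * (n : ℝ) ^ (-(1 / 15) : ℝ) ≤ 3 := by
    calc C * (M : ℝ) ^ 18 * (n : ℝ) ^ (-(1 / 15) : ℝ)
        ≤ C * (3 / C * (n : ℝ) ^ (1 / 15 : ℝ)) * (n : ℝ) ^ (-(1 / 15) : ℝ) := by gcongr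
      _ = 3 * ((n : ℝ) ^ (1 / 15 : ℝ) * (n : ℝ) ^ (-(1 / 15) : ℝ)) := by field_simp
      _ = 3 := by rw [← Real.rpow_add hn0]; norm_num
  exact h1.trans (mul_le_mul_of_nonneg_right h4 hk)

end Pool.Agent.Results.MP_56acfd_mp.ManyElectrons
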