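import Pool.Agent.Helper95.CF.All

/-!
# Total momentum and kinetic energy in ground states of molecules with well separated nuclei
-/

set_option autoImplicit false

namespace Pool.Agent.Results.MP_56acfd_mp.UpToConstant

open Pool.Agent.Helper95.PW

/-- For neutral molecules with nuclei of charges at most `z`, at mutual distances at least `d`,
the expectation of the squared total momentum in a ground state is at most a constant times the
kinetic energy. -/
theorem result : ∀ z : ℝ, 0 < z → ∃ d C : ℝ, 0 < d ∧ 0 < C ∧ ∀ (n M : ℕ) (X : Fin M → R3)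
    (Z : Fin M → ℕ) (E : ℝ) (φ : Wf n) (G : Fin n → Fin 3 → Wf n), 1 ≤ M →
    MolGround n X Z E φ G → (∀ j, (Z j : ℝ) ≤ z) → (∀ i j, i ≠ j → d ≤ nr (X i - X j)) →
    mom G ≤ C * kinG G :=
  fun z hz => Pool.Agent.Helper95.CF.upto z hz

end Pool.Agent.Results.MP_56acfd_mp.UpToConstant
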